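import Mathlib
import Pool.Agent.P.MP_ce7f50_an.OneMain

/-! For every `1 ≤ p < ∞` the Lipschitz-free space `F(ℓ_p)` is not linearly isomorphic to the `ℓ₁`-sum of
the spaces `F(ℓ_p^n)`. -/

set_option autoImplicit false

open scoped ENNReal NNReal

namespace Pool.Agent.Results.MP_ce7f50_an.NeverIsomorphic

/-- The `ℓ_p`-sum of the normed spaces `F i` (Mathlib's `lp F p`, as a type). -/
def LpSum {ι : Type} (F : ι → Type) [∀ i, NormedAddCommGroup (F i)] (p : ℝ≥0∞) : Type :=
  lp F p

/-- `LpSum F p` carries the norm of `lp F p`. -/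
noncomputable instance lpSumGroup {ι : Type} (F : ι → Type) [∀ i, NormedAddCommGroup (F i)]
    (p : ℝ≥0∞) [Fact (1 ≤ p)] : NormedAddCommGroup (LpSum F p) :=
  lp.normedAddCommGroup

/-- `LpSum F p` carries the scalar multiplication of `lp F p`. -/
noncomputable instance lpSumSpace {ι : Type} (F : ι → Type) [∀ i, NormedAddCommGroup (F i)]
    [∀ i, NormedSpace ℝ (F i)] (p : ℝ≥0∞) [Fact (1 ≤ p)] : NormedSpace ℝ (LpSum F p) :=
  lp.instNormedSpace

/-- The closed linear span of a subset `s` of a real normed space `V`, as a type. -/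
def ClosedSpan {V : Type} [NormedAddCommGroup V] [NormedSpace ℝ V] (s : Set V) : Type :=
  (Submodule.span ℝ s).topologicalClosure

/-- `ClosedSpan s` carries the norm of the ambient space. -/
noncomputable instance spanGroup {V : Type} [NormedAddCommGroup V] [NormedSpace ℝ V] (s : Set V) :
    NormedAddCommGroup (ClosedSpan s) :=
  Submodule.normedAddCommGroup (Submodule.span ℝ s).topologicalClosure

/-- `ClosedSpan s` carries the scalar multiplication of the ambient space. -/
noncomputable instance spanSpace {V : Type} [NormedAddCommGroup V] [NormedSpace ℝ V] (s : Set V) :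
    NormedSpace ℝ (ClosedSpan s) :=
  Submodule.normedSpace (Submodule.span ℝ s).topologicalClosure

/-- The closed unit ball of `Lip₀(M)`: the real `1`-Lipschitz functions on `M` vanishing at the
base point `0`. -/
def LipBall (M : Type) [NormedAddCommGroup M] : Type :=
  {f : M → ℝ // f 0 = 0 ∧ LipschitzWith 1 f}

/-- The evaluation functional `δ(x) : f ↦ f x`, as a bounded function on the unit ball of
`Lip₀(M)`. -/
noncomputable def delta {M : Type} [NormedAddCommGroup M] (x : M) :
    LpSum (fun _ : LipBall M => ℝ) ∞ :=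
  ⟨fun f => f.1 x, memℓp_infty ⟨dist x 0, by
    rintro _ ⟨f, rfl⟩
    simpa [f.2.1, Real.dist_eq] using f.2.2.dist_le_mul x 0⟩⟩

/-- The Lipschitz-free space `F(M)` (base point `0`): the closed linear span of the evaluation
functionals `δ(x)`, with the norm `‖μ‖ = sup {|μ f| : f 0 = 0, f is 1-Lipschitz}` of
`Lip₀(M)^*`. -/
def Free (M : Type) [NormedAddCommGroup M] : Type :=
  ClosedSpan (Set.range (delta (M := M)))

/-- `Free M` carries the norm of the ambient `ℓ_∞` space. -/
noncomputable instance freeGroup (M : Type) [NormedAddCommGroup M] : NormedAddCommGroup (Free M) :=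
  spanGroup _

/-- `Free M` carries the scalar multiplication of the ambient `ℓ_∞` space. -/
noncomputable instance freeSpace (M : Type) [NormedAddCommGroup M] : NormedSpace ℝ (Free M) :=
  spanSpace _

/-- `X ≃ Y`: the real normed spaces `X` and `Y` are linearly isomorphic. -/
def Isomorphic (X Y : Type) [NormedAddCommGroup X] [NormedSpace ℝ X]
    [NormedAddCommGroup Y] [NormedSpace ℝ Y] : Prop :=
  Nonempty (X ≃L[ℝ] Y)

section Sanity

/-! `Free M` with `deltaF` has the universal property that defines `F(M)`. -/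

variable {M : Type} [NormedAddCommGroup M]

/-- The canonical map `δ : M → F(M)`. -/
noncomputable def deltaF (x : M) : Free M :=
  ⟨delta x, Submodule.le_topologicalClosure _ (Submodule.subset_span ⟨x, rfl⟩)⟩

theorem completeSpace_free : CompleteSpace (Free M) :=
  have : CompleteSpace (LpSum (fun _ : LipBall M => ℝ) ∞) := lp.completeSpace
  (Submodule.isClosed_topologicalClosure _).completeSpace_coe

theorem deltaF_zero : deltaF (0 : M) = 0 :=
  Subtype.ext (lp.ext (funext fun f => f.2.1))

theorem isometry_deltaF : Isometry (deltaF : M → Free M) := by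
  refine Isometry.of_dist_eq fun x y => le_antisymm ?_ ?_
  · change dist (delta x) (delta y) ≤ _
    rw [dist_eq_norm]
    refine lp.norm_le_of_forall_le dist_nonneg fun f => ?_
    change ‖f.1 x - f.1 y‖ ≤ _
    simpa [Real.dist_eq] using f.2.2.dist_le_mul x y
  · let f : LipBall M := ⟨fun z => dist z y - dist 0 y, sub_self _,
      LipschitzWith.of_dist_le_mul fun a b => by
        simpa [Real.dist_eq] using abs_dist_sub_le a b y⟩
    have h := lp.norm_apply_le_norm ENNReal.top_ne_zero (delta x - delta y) f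
    change _ ≤ dist (delta x) (delta y)
    rw [dist_eq_norm (delta x)]
    refine le_trans (le_of_eq ?_) h
    change _ = ‖(dist x y - dist 0 y) - (dist y y - dist 0 y)‖
    simp

theorem dense_span_deltaF :
    Dense (Submodule.span ℝ (Set.range (deltaF (M := M))) : Set (Free M)) := by
  let ι : Free M →ₗ[ℝ] LpSum (fun _ : LipBall M => ℝ) ∞ :=
    (Submodule.span ℝ (Set.range (delta (M := M)))).topologicalClosure.subtype
  have h : (Submodule.span ℝ (Set.range (deltaF (M := M)))).map ι =
      Submodule.span ℝ (Set.range (delta (M := M))) := by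
    rw [Submodule.map_span, ← Set.range_comp]
    rfl
  have h2 := congrArg SetLike.coe h
  rw [Submodule.map_coe] at h2
  refine Subtype.dense_iff.2 fun y hy => ?_
  change y ∈ closure (ι '' _)
  rw [h2]
  exact hy

theorem exists_functional (g : M → ℝ) {L : ℝ} (hL : 0 ≤ L)
    (hg : ∀ a b, |g a - g b| ≤ L * dist a b) :
    ∃ Φ : StrongDual ℝ (Free M), ‖Φ‖ ≤ L ∧ ∀ x, Φ (deltaF x) = g x - g 0 := by
  rcases hL.eq_or_lt with rfl | hL'
  · exact ⟨0, ContinuousLinearMap.opNorm_zero.le, fun x => by simpa [eq_comm] using hg x 0⟩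
  let u : LipBall M := ⟨fun x => L⁻¹ * (g x - g 0), by simp,
    LipschitzWith.of_dist_le_mul fun a b => by
      rw [Real.dist_eq, ← mul_sub, sub_sub_sub_cancel_right, abs_mul, abs_of_pos (inv_pos.2 hL'),
        inv_mul_le_iff₀ hL', NNReal.coe_one, one_mul]
      exact hg a b⟩
  refine ⟨L • (lp.evalCLM ℝ _ ∞ u).comp (Submodule.span ℝ (Set.range (delta (M := M)))).topologicalClosure.subtypeL,
    ContinuousLinearMap.opNorm_le_bound _ hL fun y => ?_, fun x => ?_⟩
  · change ‖L * y.1.1 u‖ ≤ L * ‖y.1‖
    rw [norm_mul, Real.norm_of_nonneg hL]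
    exact mul_le_mul_of_nonneg_left (lp.norm_apply_le_norm ENNReal.top_ne_zero y.1 u) hL
  · exact mul_inv_cancel_left₀ hL'.ne' _

/-- Every `L`-Lipschitz map `f` from `M` to a Banach space with `f 0 = 0` has a unique bounded
linear extension to `F(M)`, of norm at most `L` (conversely `f = T ∘ δ` is `‖T‖`-Lipschitz, since
`δ` is an isometry). -/
theorem universal {X : Type*} [NormedAddCommGroup X] [NormedSpace ℝ X] [CompleteSpace X]
    {L : ℝ≥0} {f : M → X} (hf : LipschitzWith L f) (h0 : f 0 = 0) :
    ∃ T : Free M →L[ℝ] X, ‖T‖ ≤ L ∧ (∀ x, T (deltaF x) = f x) ∧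
      ∀ T' : Free M →L[ℝ] X, (∀ x, T' (deltaF x) = f x) → T' = T := by
  let e := Finsupp.linearCombination ℝ (deltaF (M := M))
  let g := Finsupp.linearCombination ℝ f
  have he : DenseRange e := by
    have h := dense_span_deltaF (M := M)
    rw [← Finsupp.range_linearCombination] at h
    exact h
  have hn : ∀ μ, ‖g μ‖ ≤ L * ‖e μ‖ := by
    intro μ
    refine NormedSpace.norm_le_dual_bound ℝ _ (by positivity) fun φ => ?_
    obtain ⟨Φ, h1, h2⟩ := exists_functional (fun x => φ (f x)) (L := ‖φ‖ * L) (by positivity)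
      fun a b => by
        rw [← map_sub, mul_assoc]
        refine (φ.le_opNorm _).trans ?_
        rw [← dist_eq_norm]
        exact mul_le_mul_of_nonneg_left (hf.dist_le_mul a b) (norm_nonneg φ)
    have h3 : φ (g μ) = Φ (e μ) := by
      simp [e, g, Finsupp.linearCombination_apply, Finsupp.sum, h2, h0]
    rw [h3]
    refine (Φ.le_opNorm _).trans ((mul_le_mul_of_nonneg_right h1 (norm_nonneg _)).trans_eq ?_)
    ring
  have hT : ∀ x, g.extendOfNorm e (deltaF x) = f x := fun x => by
    simpa [e, g] using LinearMap.extendOfNorm_eq he ⟨_, hn⟩ (Finsupp.single x 1)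
  refine ⟨g.extendOfNorm e, LinearMap.opNorm_extendOfNorm_le he L.2 hn, hT, fun T' hT' => ?_⟩
  exact ContinuousLinearMap.ext_on dense_span_deltaF (by rintro _ ⟨x, rfl⟩; rw [hT', hT])

end Sanity

open Pool.Agent.P.MP_ce7f50_an in
theorem isFree (X : Type) [NormedAddCommGroup X] : IsFree (deltaF : X → Free X) where
  zero := deltaF_zero
  lip := fun s t => by rw [← dist_eq_norm, isometry_deltaF.dist_eq, dist_eq_norm, one_mul]
  dense := dense_span_deltaF
  extend := fun g L hL hg => exists_functional g hL fun a b => by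
    rw [dist_eq_norm]; exact hg a b

/-- For every `1 ≤ p < ∞`, `F(ℓ_p)` is not linearly isomorphic to the `ℓ₁`-sum of the spaces
`F(ℓ_p^n)`, `n ≥ 1`. -/
theorem result (p : ℝ≥0∞) [Fact (1 ≤ p)] (hp : p ≠ ∞) :
    ¬ Isomorphic (Free (LpSum (fun _ : ℕ => ℝ) p))
      (LpSum (fun n : ℕ => Free (PiLp p fun _ : Fin (n + 1) => ℝ)) 1) := by
  rintro ⟨T⟩
  have := completeSpace_free (M := LpSum (fun _ : ℕ => ℝ) p)
  have := fun n : ℕ => completeSpace_free (M := PiLp p fun _ : Fin (n + 1) => ℝ)
  exact Pool.Agent.P.MP_ce7f50_an.not_factor_all (Y := Free (LpSum (fun _ : ℕ => ℝ) p)) hp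
    (isFree (LpSum (fun _ : ℕ => ℝ) p)) (fun n => isFree _)
    T.toContinuousLinearMap T.symm.toContinuousLinearMap T.symm_apply_apply

end Pool.Agent.Results.MP_ce7f50_an.NeverIsomorphic
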